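import Pool.Agent.Helper92.Ru.GoalsV

set_option autoImplicit false

open NumberField IsDedekindDomain

namespace Pool.Agent.Helper56.Ru

open Pool.Agent.Helper92.Ru

/-- a finite place is `< 1` exactly when the valuation of its prime is `< 1` -/
theorem lt_one_iff_val {k : Type} [Field k] [NumberField k] (v : FinitePlace k) (y : k) :
    v y < 1 ↔ v.maximalIdeal.valuation k y < 1 := by
  rw [← FinitePlace.norm_embedding_eq, FinitePlace.norm_embedding']
  have h := WithZeroMulInt.toNNReal_strictMono
    (NumberField.HeightOneSpectrum.one_lt_absNorm_nnreal v.maximalIdeal)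
  have h1 := h.lt_iff_lt (a := v.maximalIdeal.valuation k y) (b := 1)
  rw [map_one] at h1
  rw [← h1]
  norm_cast

/-- a finite place is `< 1` at an integer exactly when the integer is in its prime -/
theorem lt_one_iff_mem {k : Type} [Field k] [NumberField k] (v : FinitePlace k) (y : 𝓞 k) :
    v (algebraMap (𝓞 k) k y) < 1 ↔ y ∈ v.maximalIdeal.asIdeal := by
  rw [← FinitePlace.norm_embedding_eq]
  exact FinitePlace.norm_lt_one_iff_mem k v.maximalIdeal y

theorem above_of_liesOver {k : Type} [Field k] [NumberField k] {L : Type} [Field L]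
    [NumberField L] [Algebra k L] (v : FinitePlace k) (w : FinitePlace L)
    [w.maximalIdeal.asIdeal.LiesOver v.maximalIdeal.asIdeal] : Above v w := by
  intro y
  rw [lt_one_iff_val, lt_one_iff_val,
    ← HeightOneSpectrum.valuation_liesOver (A := 𝓞 k) (B := 𝓞 L) L v.maximalIdeal w.maximalIdeal y]
  have he := Ideal.IsDedekindDomain.ramificationIdx'_ne_zero_of_liesOver
    w.maximalIdeal.asIdeal v.maximalIdeal.ne_bot
  rw [pow_lt_one_iff he]

theorem above_inj {k : Type} [Field k] [NumberField k] {L : Type} [Field L]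
    [NumberField L] [Algebra k L] {v v' : FinitePlace k} {w : FinitePlace L}
    (h : Above v w) (h' : Above v' w) : v = v' := by
  have key : ∀ y : k, v y < 1 ↔ v' y < 1 := fun y => (h y).trans (h' y).symm
  rw [← FinitePlace.maximalIdeal_inj]
  apply HeightOneSpectrum.ext
  ext y
  rw [← lt_one_iff_mem, ← lt_one_iff_mem, key]

/-- P1 -/
theorem plBelow : PlBelow := by
  intro k _ _ L _ _ _ w
  have : (w.maximalIdeal).asIdeal.LiesOver
      (FinitePlace.mk (w.maximalIdeal.under (𝓞 k))).maximalIdeal.asIdeal := by
    rw [FinitePlace.maximalIdeal_mk]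
    constructor
    rfl
  refine ⟨FinitePlace.mk (w.maximalIdeal.under (𝓞 k)), above_of_liesOver _ _, ?_⟩
  intro v' hv'
  exact above_inj hv' (above_of_liesOver _ _)

end Pool.Agent.Helper56.Ru
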